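import Mathlib
import Pool.Agent.Lib.MP_8e46bf_ag.Roots

set_option autoImplicit false

namespace Pool.Agent.Results.MP_8e46bf_ag.SevenPoints

open Polynomial

/-- The polynomial `w(x) = ∏ (x - z_i)` with coefficients in `ℝ[z_1, …, z_n]`. -/
noncomputable def w (n : ℕ) : (MvPolynomial (Fin n) ℝ)[X] :=
  ∏ i : Fin n, (X - C (MvPolynomial.X i))

/-- `D_n`: the discriminant of `w'`, an element of `ℝ[z_1, …, z_n]`. -/
noncomputable def D (n : ℕ) : MvPolynomial (Fin n) ℝ := (derivative (w n)).discr

/-- Products of differences `∏ (z_i - z_j)`, `i ≠ j`, repetitions allowed. -/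
def IsDiffProd {n : ℕ} (P : MvPolynomial (Fin n) ℝ) : Prop :=
  ∃ l : List (Fin n × Fin n), (∀ p ∈ l, p.1 ≠ p.2) ∧
    P = (l.map fun p => MvPolynomial.X p.1 - MvPolynomial.X p.2).prod

/-- discriminants commute with ring homomorphisms which keep the degree -/
lemma map_discr {R S : Type} [CommRing R] [CommRing S] [IsDomain S] (φ : R →+* S) (f : R[X])
    (hd : 0 < f.natDegree) (hl : φ f.leadingCoeff ≠ 0) : φ f.discr = (f.map φ).discr := by
  have hn : (f.map φ).natDegree = f.natDegree := natDegree_map_of_leadingCoeff_ne_zero φ hl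
  have hlc : (f.map φ).leadingCoeff = φ f.leadingCoeff := leadingCoeff_map_of_leadingCoeff_ne_zero φ hl
  have h1 := resultant_deriv (natDegree_pos_iff_degree_pos.mp hd)
  have h2 := resultant_deriv (f := f.map φ) (natDegree_pos_iff_degree_pos.mp (by rw [hn]; exact hd))
  rw [hn, hlc, derivative_map, resultant_map_map, h1, map_mul, map_mul, map_pow, map_neg, map_one] at h2
  have h3 : ((-1 : S) ^ (f.natDegree * (f.natDegree - 1) / 2) * φ f.leadingCoeff) ≠ 0 :=
    mul_ne_zero (pow_ne_zero _ (neg_ne_zero.mpr one_ne_zero)) hl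
  exact mul_left_cancel₀ h3 h2

/-- the discriminant of a split sextic -/
lemma discr_roots (r : Fin 6 → ℂ) :
    (C (7 : ℂ) * ∏ j : Fin 6, (X - C (r j))).discr =
      7 ^ 10 * ∏ a : Fin 6, ∏ b ∈ Finset.Ioi a, (r a - r b) ^ 2 := by
  set F : ℂ[X] := C (7 : ℂ) * ∏ j : Fin 6, (X - C (r j)) with hF
  have hmon : (∏ j : Fin 6, (X - C (r j))).Monic := monic_prod_of_monic _ _ fun j _ => monic_X_sub_C _
  have hdeg0 : (∏ j : Fin 6, (X - C (r j))).natDegree = 6 := by
    rw [natDegree_prod_of_monic _ _ fun j _ => monic_X_sub_C _]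
    simp
  have hdeg : F.natDegree = 6 := by
    rw [hF, natDegree_C_mul (by norm_num), hdeg0]
  have hlc : F.leadingCoeff = 7 := by
    rw [hF, leadingCoeff_mul, leadingCoeff_C, hmon.leadingCoeff, mul_one]
  have hroots : F.roots = Finset.univ.val.map r := by
    rw [hF, roots_C_mul _ (by norm_num)]
    have : ∏ j : Fin 6, (X - C (r j)) = ((Finset.univ.val.map r).map fun a => X - C a).prod := by
      rw [Multiset.map_map]
      rfl
    rw [this, roots_multiset_prod_X_sub_C]
  have hder : ∀ j, F.derivative.eval (r j) = 7 * ∏ l ∈ ({j}ᶜ : Finset (Fin 6)), (r j - r l) := by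
    intro j
    rw [hF, derivative_C_mul, eval_mul, eval_C, derivative_prod_finset, eval_finsetSum,
      Finset.sum_eq_single j]
    · rw [eval_mul, eval_prod]
      simp only [eval_sub, eval_X, eval_C, derivative_sub, derivative_X, derivative_C, sub_zero,
        eval_one, mul_one]
      congr 2
      ext l
      simp
    · intro i _ hi
      rw [eval_mul, eval_prod]
      rw [Finset.prod_eq_zero (i := j)]
      · ring
      · simp [Ne.symm hi]
      · simp
    · intro h
      exact absurd (Finset.mem_univ _) h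
  have h1 := resultant_deriv (f := F) (natDegree_pos_iff_degree_pos.mp (by rw [hdeg]; norm_num))
  have hs : F.Splits := IsAlgClosed.splits F
  have h2 := resultant_eq_prod_eval F F.derivative (F.natDegree - 1)
    (natDegree_derivative_le F) hs
  rw [h2, hdeg, hlc, hroots, Multiset.map_map] at h1
  have h3 : (Multiset.map ((fun x => eval x F.derivative) ∘ r) Finset.univ.val).prod =
      ∏ j : Fin 6, (7 * ∏ l ∈ ({j}ᶜ : Finset (Fin 6)), (r j - r l)) :=
    Finset.prod_congr rfl fun j _ => hder j
  rw [h3, Finset.prod_mul_distrib] at h1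
  have h4 := Finset.prod_prod_Ioi_mul_eq_prod_prod_off_diag (fun j i : Fin 6 => r i - r j)
  rw [← h4] at h1
  have h5 : ∏ i : Fin 6, ∏ j ∈ Finset.Ioi i, ((r i - r j) * (r j - r i)) =
      (-1) ^ 15 * ∏ a : Fin 6, ∏ b ∈ Finset.Ioi a, (r a - r b) ^ 2 := by
    have h6 : ∀ i j : Fin 6, (r i - r j) * (r j - r i) = (-1) * (r i - r j) ^ 2 := by
      intro i j; ring
    simp only [h6, Finset.prod_mul_distrib, Finset.prod_const]
    congr 1
    simp only [Fin.card_Ioi, Fin.prod_univ_six]
    norm_num
  rw [h5] at h1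
  simp only [Finset.prod_const, Finset.card_univ, Fintype.card_fin] at h1
  norm_num at h1
  linear_combination (-1 / 7 : ℂ) * h1

/-- `D_7` evaluated at the points of the configuration. -/
lemma eval_D (t : ℝ) (r : Fin 6 → ℂ)
    (hr : derivative (∏ i : Fin 7, (X - C ((Lib.MP_8e46bf_ag.zc t i : ℝ) : ℂ))) =
      C ((7 : ℕ) : ℂ) * ∏ j : Fin 6, (X - C (r j))) :
    (MvPolynomial.aeval (fun i => ((Lib.MP_8e46bf_ag.zc t i : ℝ) : ℂ)) (D 7) : ℂ) =
      7 ^ 10 * ∏ a : Fin 6, ∏ b ∈ Finset.Ioi a, (r a - r b) ^ 2 := by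
  set φ : MvPolynomial (Fin 7) ℝ →+* ℂ :=
    (MvPolynomial.aeval (fun i => ((Lib.MP_8e46bf_ag.zc t i : ℝ) : ℂ))).toRingHom with hφ
  have hmon : (w 7).Monic := monic_prod_of_monic _ _ fun j _ => monic_X_sub_C _
  have hd : (w 7).natDegree = 7 := by
    rw [w, natDegree_prod_of_monic _ _ fun j _ => monic_X_sub_C _]
    simp
  have hd' : (derivative (w 7)).natDegree = 6 := by
    rw [natDegree_derivative, hd]
  have hl : (derivative (w 7)).leadingCoeff = 7 := by
    rw [leadingCoeff, hd', coeff_derivative]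
    have : (w 7).coeff (6 + 1) = 1 := by
      have := hmon.coeff_natDegree
      rwa [hd] at this
    rw [this]
    norm_num
  have h1 : φ (D 7) = ((derivative (w 7)).map φ).discr := by
    apply map_discr
    · rw [hd']; norm_num
    · rw [hl, map_ofNat]
      norm_num
  have h2 : (derivative (w 7)).map φ = C (7 : ℂ) * ∏ j : Fin 6, (X - C (r j)) := by
    rw [← derivative_map, w, Polynomial.map_prod]
    have h3 : ∀ i : Fin 7, Polynomial.map φ (X - C (MvPolynomial.X i)) =
        X - C ((Lib.MP_8e46bf_ag.zc t i : ℝ) : ℂ) := by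
      intro i
      rw [Polynomial.map_sub, map_X, map_C, hφ]
      simp
    rw [Finset.prod_congr rfl fun i _ => h3 i, hr]
    norm_num
  rw [h2, discr_roots] at h1
  exact h1

open Pool.Agent.Lib.MP_8e46bf_ag in
/-- **Theorem (negative answer).** For seven points no positive multiple of the discriminant `D_7`
of the derivative is a nonnegative combination of squares of products of differences. -/
theorem result : ¬ ∃ (a : ℝ) (N : ℕ) (c : Fin N → ℝ) (P : Fin N → MvPolynomial (Fin 7) ℝ),
    0 < a ∧ (∀ k, 0 ≤ c k) ∧ (∀ k, IsDiffProd (P k)) ∧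
    MvPolynomial.C a * D 7 = ∑ k, MvPolynomial.C (c k) * P k ^ 2 := by
  rintro ⟨a, N, c, P, ha, hc, hP, hid⟩
  choose E hE hPE using hP
  have hval : ∀ (t : ℝ) (K : ℝ), (∀ r : Fin 6 → ℂ,
      Polynomial.derivative (∏ i : Fin 7, (Polynomial.X - Polynomial.C ((zc t i : ℝ) : ℂ))) =
      Polynomial.C ((7 : ℕ) : ℂ) * ∏ j : Fin 6, (Polynomial.X - Polynomial.C (r j)) →
      ∏ a : Fin 6, ∏ b ∈ Finset.Ioi a, (r a - r b) ^ 2 = (K : ℂ)) →
      ∑ k : Fin N, c k * (prodf t (E k)) ^ 2 = a * (7 ^ 10 * K) := by
    intro t K hK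
    obtain ⟨r, hr⟩ := exists_roots t
    have h1 := eval_D t r hr
    rw [hK r hr] at h1
    have h2 := congrArg (MvPolynomial.aeval (fun i => ((zc t i : ℝ) : ℂ))) hid
    rw [map_mul, h1, map_sum] at h2
    have h3 : ∀ k, (MvPolynomial.aeval (fun i => ((zc t i : ℝ) : ℂ)))
        (MvPolynomial.C (c k) * P k ^ 2) = ((c k * (prodf t (E k)) ^ 2 : ℝ) : ℂ) := by
      intro k
      rw [map_mul, map_pow, hPE k, map_list_prod, List.map_map, prodf]
      push_cast
      congr 2
      · simp
      · rw [← Complex.ofRealHom_eq_coe, map_list_prod, List.map_map]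
        congr 1
        refine List.map_congr_left fun p _ => ?_
        simp [fac]
    rw [Finset.sum_congr rfl fun k _ => h3 k] at h2
    have h4 : ((a * (7 ^ 10 * K) : ℝ) : ℂ) = ((∑ k : Fin N, c k * (prodf t (E k)) ^ 2 : ℝ) : ℂ) := by
      push_cast
      push_cast at h2
      rw [← h2]
      simp
    exact_mod_cast h4.symm
  have hA := hval 0 22125558845833736355533586337250706521053141321498383072648483369725202923520000
    (fun r hr => by
      have := valueA r hr
      rw [this]
      push_cast
      rfl)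
  have hB := hval 70000 2573931854437100717353696585699588537178623740056682123883905150076976134656058104072508281323520000
    (fun r hr => by
      have := valueB r hr
      rw [this]
      push_cast
      rfl)
  have hC := hval 700000 25747697329954890717594505724064540097122716978643930485040001140521864586305972295565894713648033042923520000
    (fun r hr => by
      have := valueC r hr
      rw [this]
      push_cast
      rfl)
  have hineq : ∑ k : Fin N, c k * (prodf 70000 (E k)) ^ 2 ≤
      ((70714 / 700 : ℝ) ^ 2) ^ 5 * ∑ k : Fin N, c k * (prodf 0 (E k)) ^ 2 +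
      ((70714 / 700714 : ℝ) ^ 2) ^ 6 * ∑ k : Fin N, c k * (prodf 700000 (E k)) ^ 2 := by
    rw [Finset.mul_sum, Finset.mul_sum, ← Finset.sum_add_distrib]
    refine Finset.sum_le_sum fun k _ => ?_
    have h1 := mul_le_mul_of_nonneg_left (prodf_bound (E k)) (hc k)
    linarith
  rw [hA, hB, hC] at hineq
  have h7 : ((70714 / 700 : ℝ) ^ 2) ^ 5 * (7 ^ 10 * 22125558845833736355533586337250706521053141321498383072648483369725202923520000) +
      ((70714 / 700714 : ℝ) ^ 2) ^ 6 * (7 ^ 10 * 25747697329954890717594505724064540097122716978643930485040001140521864586305972295565894713648033042923520000)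
      < 7 ^ 10 * 2573931854437100717353696585699588537178623740056682123883905150076976134656058104072508281323520000 := by
    norm_num
  have h8 := mul_lt_mul_of_pos_left h7 ha
  linarith

end Pool.Agent.Results.MP_8e46bf_ag.SevenPoints
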